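import Pool.Agent.Helper69.FF.St
import Pool.Agent.Helper53.DV.PES
import Pool.Agent.Helper53.DV.PRE

/-!
# Project FF (MP_d684b1_an), module SM: the second moment of a Rademacher sum
-/

set_option autoImplicit false

open scoped BigOperators
open MeasureTheory

open FF DV

namespace Pool.Agent.Helper45.FF

/-- the uniform probability measure on `Bool` -/
noncomputable def ub : Measure Bool := (PMF.uniformOfFintype Bool).toMeasure

instance : IsProbabilityMeasure ub := by unfold ub; infer_instance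

theorem ub_sing (b : Bool) : ub {b} = 2⁻¹ := by
  unfold ub
  rw [PMF.toMeasure_apply_singleton _ _ (measurableSet_singleton b)]
  simp

theorem int_pi (N : ℕ) (F : (Fin N → Bool) → ℝ) :
    ∫ ω, F ω ∂(Measure.pi fun _ : Fin N => ub) = (∑ s : Fin N → Bool, F s) / (2 : ℝ) ^ N := by
  have hreal : ∀ s : Fin N → Bool, (Measure.pi fun _ : Fin N => ub).real {s} = ((2 : ℝ) ^ N)⁻¹ := by
    intro s
    rw [Measure.real, Measure.pi_singleton]
    simp [ub_sing]
  rw [integral_fintype Integrable.of_finite]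
  simp only [hreal, smul_eq_mul]
  rw [← Finset.mul_sum]
  ring

theorem sg_sq (b : Bool) : sg b ^ 2 = 1 := by
  cases b <;> simp [sg]

theorem sg_diff (b b' : Bool) : |sg b - sg b'| ≤ 2 := by
  cases b <;> cases b' <;> norm_num [sg]

theorem hSM : _root_.FF.StSM := by
  intro X _ _ N x hx
  set f : (Fin N → Bool) → ℝ := fun s => ‖∑ i, sg (s i) • x i‖ with hf
  have hB : ∀ s, |f s| ≤ Real.sqrt N := by
    intro s
    have h1 := hx (fun i => sg (s i))
    have h2 : ∑ i : Fin N, sg (s i) ^ 2 = N := by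
      simp [sg_sq]
    rw [h2] at h1
    rw [hf]; dsimp only
    rw [abs_of_nonneg (norm_nonneg _)]
    exact h1
  have hV : ∀ ω ω' : Fin N → Bool,
      ∑ i, (max 0 (f ω - f (Function.update ω i (ω' i)))) ^ 2 ≤ 4 := by
    intro ω ω'
    obtain ⟨g, hg1, hg2⟩ := exists_dual_vector'' ℝ (∑ i, sg (ω i) • x i)
    have h3 : ∀ i, f ω - f (Function.update ω i (ω' i)) ≤ 2 * |g (x i)| := by
      intro i
      have h4 : g (∑ j, sg (Function.update ω i (ω' i) j) • x j) ≤ f (Function.update ω i (ω' i)) := by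
        calc g (∑ j, sg (Function.update ω i (ω' i) j) • x j)
            ≤ ‖g (∑ j, sg (Function.update ω i (ω' i) j) • x j)‖ := le_abs_self _
          _ ≤ ‖g‖ * ‖∑ j, sg (Function.update ω i (ω' i) j) • x j‖ := g.le_opNorm _
          _ ≤ 1 * ‖∑ j, sg (Function.update ω i (ω' i) j) • x j‖ := by gcongr
          _ = f (Function.update ω i (ω' i)) := one_mul _
      have h5 : f ω = g (∑ j, sg (ω j) • x j) := by
        rw [hg2]; rfl
      have h6 : g (∑ j, sg (ω j) • x j) - g (∑ j, sg (Function.update ω i (ω' i) j) • x j) =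
          (sg (ω i) - sg (ω' i)) * g (x i) := by
        rw [← map_sub, ← Finset.sum_sub_distrib, Finset.sum_eq_single i]
        · rw [Function.update_self, ← sub_smul, map_smul, smul_eq_mul]
        · intro j _ hj
          rw [Function.update_of_ne hj, sub_self]
        · intro h; exact absurd (Finset.mem_univ i) h
      have h7 : (sg (ω i) - sg (ω' i)) * g (x i) ≤ 2 * |g (x i)| := by
        calc (sg (ω i) - sg (ω' i)) * g (x i) ≤ |(sg (ω i) - sg (ω' i)) * g (x i)| := le_abs_self _
          _ = |sg (ω i) - sg (ω' i)| * |g (x i)| := abs_mul _ _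
          _ ≤ 2 * |g (x i)| := by
            gcongr
            exact sg_diff _ _
      linarith
    have h8 : ∀ i, (max 0 (f ω - f (Function.update ω i (ω' i)))) ^ 2 ≤ 4 * (g (x i)) ^ 2 := by
      intro i
      have h9 : max 0 (f ω - f (Function.update ω i (ω' i))) ≤ 2 * |g (x i)| :=
        max_le (by positivity) (h3 i)
      calc (max 0 (f ω - f (Function.update ω i (ω' i)))) ^ 2 ≤ (2 * |g (x i)|) ^ 2 := by
            gcongr
        _ = 4 * (g (x i)) ^ 2 := by rw [mul_pow, sq_abs]; norm_num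
    calc ∑ i, (max 0 (f ω - f (Function.update ω i (ω' i)))) ^ 2 ≤ ∑ i, 4 * (g (x i)) ^ 2 :=
          Finset.sum_le_sum (fun i _ => h8 i)
      _ = 4 * ∑ i, (g (x i)) ^ 2 := by rw [Finset.mul_sum]
      _ ≤ 4 * 1 := by
          gcongr
          exact DV.RE.weak_dual x hx g hg1
      _ = 4 := by norm_num
  have h := pES Bool ub N f (measurable_of_finite f) (Real.sqrt N) hB 4 hV
  rw [int_pi N f, int_pi N] at h
  have hP : (0 : ℝ) < (2 : ℝ) ^ N := by positivity
  have hrad : radAvg x = (∑ s, f s) / (2 : ℝ) ^ N := by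
    unfold radAvg; rw [Fintype.card_fin]
  set m : ℝ := (∑ s, f s) / (2 : ℝ) ^ N with hm
  have hm2 : ∑ s, f s = (2 : ℝ) ^ N * m := by rw [hm]; field_simp
  have hexp : ∑ s, (f s - m) ^ 2 = ∑ s, f s ^ 2 - (2 : ℝ) ^ N * m ^ 2 := by
    have e1 : ∀ s, (f s - m) ^ 2 = f s ^ 2 - 2 * m * f s + m ^ 2 := fun s => by ring
    rw [Finset.sum_congr rfl (fun s _ => e1 s), Finset.sum_add_distrib, Finset.sum_sub_distrib,
      ← Finset.mul_sum, hm2, Finset.sum_const, Finset.card_univ, Fintype.card_fun, Fintype.card_bool,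
      Fintype.card_fin, nsmul_eq_mul]
    push_cast
    ring
  rw [hexp, sub_div, mul_div_cancel_left₀ _ hP.ne'] at h
  rw [hrad]
  have hfin : (∑ s : Fin N → Bool, ‖∑ i, sg (s i) • x i‖ ^ 2) / (2 : ℝ) ^ N = (∑ s, f s ^ 2) / (2 : ℝ) ^ N := rfl
  rw [hfin]
  linarith

end Pool.Agent.Helper45.FF
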